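import Pool.Agent.TH824.LL.Bridge

/-!
# Local liftings compatible with global functorial liftings do not exist in general (Q1, disproof)

All definitions are in `Pool/Agent/TH824/LL/Defs.lean`.  The instance of Q1 that fails:
`F = F_2((1/t))` (`Kinf`), `G = GL_2`, `L = F`, `ρ = id : GL_2(ℂ) → GL_2(ℂ)`, global field `K = F_2(t)`,
place `∞`.

* `π₂` is a cuspidal automorphic representation of `GL_2(A_K)` whose component `σ` at `∞` is a Steinberg
  representation; it is isobaric and its own global lifting, so the lifting has component `σ` at `∞`.
* `π₁` is an irreducible subquotient of the space of automorphic forms (it comes from values of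
  Eisenstein series: Steinberg at `∞`, trivial at all finite places), whose global lifting is the
  one-dimensional trivial representation `|.|^{1/2} ⊞ |.|^{-1/2}`; the lifting has trivial component at `∞`.

Both have the same component `σ` at `∞`, so no map `Irr(GL_2(F)) → Irr(GL_2(F))` predicts the components
of the global liftings.
-/

set_option autoImplicit false

namespace Pool.Agent.Results.MP_5ae62c_nt.NoLocalLift

/-- Q1 fails for `F = F_2((1/t))`, `G = GL_2`, `ρ = id`, already over the global field `K = F_2(t)`. -/
theorem result : ¬ TH824.LL.LocalLiftExists := TH824.LL.not_localLiftExists

end Pool.Agent.Results.MP_5ae62c_nt.NoLocalLift
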